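import Pool.Agent.H539R2.DiagD

/-!
One tally language in deterministic linear space is accepted by no cellular automaton of any
dimension `d` in time `o((n / log n) ^ (1 + 1 / d))`.
-/

namespace Pool.Agent.H554R2.Moved.DimCATimeLowerBoundf404b1

open Pool.Agent.H539R2 Filter

/-- There is a deterministic linear bounded automaton `A`, accepting only words over the
one-letter alphabet `{true}`, such that for every dimension `d ≥ 1` no (deterministic, two-way
unbounded) cellular automaton on the grid `ℤ^d` accepts the language of `A` in time `T` whenever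
`T n = o((n / log n) ^ (1 + 1 / d))`. -/
theorem result :
    ∃ A : LBA, (∀ w, A.Acc w → ∀ x ∈ w, x = true) ∧
      ∀ (d : ℕ) [NeZero d] (M : DCA d) (T : ℕ → ℕ),
        (fun n => (T n : ℝ)) =o[atTop]
          (fun n => ((n : ℝ) / Real.log n) ^ (1 + 1 / (d : ℝ))) →
        M.InTime T → ¬ ∀ x, (A.Acc x ↔ M.Acc x) :=
  DD.mainD

end Pool.Agent.H554R2.Moved.DimCATimeLowerBoundf404b1
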