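import Pool.Agent.H632R2.GH.Main

/-!
# The hierarchy in the number of guess bits for De Morgan formulas is strict
-/

namespace Pool.Agent.Results.MP_cd574d_lc.FormulaGuesses

open H632.GH
open Filter

theorem result (m m' s : ℕ → ℕ) (hmm : ∀ n, m n ≤ m' n) (hs : ∀ᶠ n in atTop, m' n ≤ s n)
    (hsn : ∀ᶠ n in atTop, s n * m' n ≤ n ^ 2)
    (hm : ∀ K : ℕ, ∀ᶠ n in atTop, K * (m n + 1) ≤ m' n) :
    NPc m s ⊂ NPc m' s ∧ ∃ f ∈ UPc m' s, f ∉ THRc m s :=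
  hierarchy m m' s hmm hs hsn hm

end Pool.Agent.Results.MP_cd574d_lc.FormulaGuesses
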