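import Pool.Agent.H620R2.Gauge2.CoverN
import Pool.Agent.H620R2.Gauge2.CoverE
import Pool.Agent.H620R2.Gauge2.Trans
import Pool.Agent.H620R2.Gauge2.V7
import Pool.Agent.H620R2.Gauge.NonNull

/-!
# How many oracles make one of the inclusions `P ⊆ NP ⊆ PSPACE ⊆ EXP` improper?

For every gauge `f` the following are equivalent: for every `ε > 0` there are infinitely many `N`
with `f N ≤ 2 ^ ((log N) ^ ε)`; the oracles with `P = NP` are a null set for `f`; the oracles with
`NP = PSPACE` are a null set for `f`; the oracles such that one of the three inclusions is an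
equality are a null set for `f`. The same holds for every set of oracles that contains the `A`
such that every language in `PSPACE^A` is reducible to `A`, and that has only elements `A` with
`NP^A ⊆ coNP^A/poly` or `EXP^A ⊆ PSPACE^A/poly`.
-/

namespace Pool.Agent.H554R2.Moved.GaugeThreshold71c844

open Pool.Agent.NPC Pool.Agent.H620R2.Gauge

theorem result (f : ℕ → ℝ) :
    (∀ O : Set Oracle,
      (∀ A : Oracle, (∀ L, IsPSPACE A L → Reduces L {x | A x = true}) → A ∈ O) →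
      (∀ A ∈ O, (∀ L, IsNP A L → WithAdvice (IsNP A) Lᶜ) ∨
        (∀ L, IsEXP A L → WithAdvice (IsPSPACE A) L)) →
      (Null f O ↔
        ∀ ε : ℝ, 0 < ε → ∃ᶠ N : ℕ in Filter.atTop, f N ≤ 2 ^ (Real.logb 2 N) ^ ε)) ∧
    (Null f {A : Oracle | ∀ L, IsP A L ↔ IsNP A L} ↔
      ∀ ε : ℝ, 0 < ε → ∃ᶠ N : ℕ in Filter.atTop, f N ≤ 2 ^ (Real.logb 2 N) ^ ε) ∧
    (Null f {A : Oracle | ∀ L, IsNP A L ↔ IsPSPACE A L} ↔
      ∀ ε : ℝ, 0 < ε → ∃ᶠ N : ℕ in Filter.atTop, f N ≤ 2 ^ (Real.logb 2 N) ^ ε) ∧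
    (Null f {A : Oracle | (∀ L, IsP A L ↔ IsNP A L) ∨ (∀ L, IsNP A L ↔ IsPSPACE A L) ∨
        (∀ L, IsPSPACE A L ↔ IsEXP A L)} ↔
      ∀ ε : ℝ, 0 < ε → ∃ᶠ N : ℕ in Filter.atTop, f N ≤ 2 ^ (Real.logb 2 N) ^ ε) := by
  have key : ∀ O : Set Oracle,
      (∀ A : Oracle, (∀ L, IsPSPACE A L → Reduces L {x | A x = true}) → A ∈ O) →
      (∀ A ∈ O, (∀ L, IsNP A L → WithAdvice (IsNP A) Lᶜ) ∨
        (∀ L, IsEXP A L → WithAdvice (IsPSPACE A) L)) →
      (Null f O ↔
        ∀ ε : ℝ, 0 < ε → ∃ᶠ N : ℕ in Filter.atTop, f N ≤ 2 ^ (Real.logb 2 N) ^ ε) := by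
    intro O h1 h2
    constructor
    · intro hn ε hε
      by_contra hcon
      rw [Filter.not_frequently] at hcon
      exact not_null f ε hε (hcon.mono fun N h => not_le.1 h) O h1 hn
    · intro hf
      have hN : Null f {A : Oracle | WithAdvice (IsNP A) (hitLang A)ᶜ} :=
        nullN hf _ fun A hA => hA
      have hE : Null f {A : Oracle | WithAdvice (IsPSPACE A) (farLang A)} :=
        nullE hf _ fun A hA => hA
      refine (null_union hN hE).mono fun A hA => ?_
      rcases h2 A hA with h | h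
      · exact Or.inl (h _ (hitLang_np A))
      · exact Or.inr (h _ (farLang_exp A))
  have hPNP : ∀ A : Oracle, (∀ L, IsP A L ↔ IsNP A L) →
      ∀ L, IsNP A L → WithAdvice (IsNP A) Lᶜ :=
    fun A hA L hL => ((hA L).2 hL).compl.isNP.withAdvice
  have hNPS : ∀ A : Oracle, (∀ L, IsNP A L ↔ IsPSPACE A L) →
      ∀ L, IsNP A L → WithAdvice (IsNP A) Lᶜ :=
    fun A hA L hL => ((hA _).2 ((hA L).1 hL).compl).withAdvice
  have hard : ∀ A : Oracle, (∀ L, IsPSPACE A L → Reduces L {x | A x = true}) →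
      ∀ L, IsPSPACE A L → IsP A L := fun A hA L hL => isP_of_reduces (hA L hL)
  refine ⟨key, key _ ?_ ?_, key _ ?_ ?_, key _ ?_ ?_⟩
  · intro A hA L
    exact ⟨fun h => h.isNP, fun h => hard A hA L h.isPSPACE⟩
  · intro A hA
    exact Or.inl (hPNP A hA)
  · intro A hA L
    exact ⟨fun h => h.isPSPACE, fun h => (hard A hA L h).isNP⟩
  · intro A hA
    exact Or.inl (hNPS A hA)
  · intro A hA
    exact Or.inl fun L => ⟨fun h => h.isNP, fun h => hard A hA L h.isPSPACE⟩
  · intro A hA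
    rcases hA with hA | hA | hA
    · exact Or.inl (hPNP A hA)
    · exact Or.inl (hNPS A hA)
    · exact Or.inr fun L hL => ((hA L).2 hL).withAdvice

end Pool.Agent.H554R2.Moved.GaugeThreshold71c844
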