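import Pool.Agent.H620R2.GaugeR.EventR
import Pool.Agent.H620R2.GaugeR.NonNullR
import Pool.Agent.H620R2.GaugeR.R5
import Pool.Agent.H620R2.GaugeR.R6
import Pool.Agent.H620R2.GaugeR.R13
import Pool.Agent.H620R2.Gauge2.CoverN
import Pool.Agent.H620R2.Gauge2.V7
import Pool.Agent.H620R2.Gauge2.Trans
import Pool.Agent.H620R2.Gauge.NonNull

/-!
# How many oracles make the inclusions `P ⊆ RP ⊆ NP` proper?

For every gauge `f`: the oracles with `P ≠ RP` are a null set for `f` if and only if, for some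
constant `C`, for all large `N` there is `N' ≥ N` with `f N' ≤ (log N) ^ C`; the same condition
describes when the oracles for which both inclusions are proper are a null set; the oracles with
`RP = NP` are a null set if and only if, for every `ε > 0`, `f N ≤ 2 ^ ((log N) ^ ε)` for
infinitely many `N`.
-/

namespace Pool.Agent.Results.MP_b573ec_lc.GaugeThreshold

open Pool.Agent.NPC Pool.Agent.H620R2.Gauge

theorem result (f : ℕ → ℝ) :
    (Null f {A : Oracle | ∃ L, IsRP A L ∧ ¬ IsP A L} ↔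
      ∃ C : ℕ, ∀ᶠ N : ℕ in Filter.atTop, ∃ N' ≥ N, f N' ≤ (Real.logb 2 N) ^ C) ∧
    (Null f {A : Oracle | ∀ L, IsNP A L → IsRP A L} ↔
      ∀ ε : ℝ, 0 < ε → ∃ᶠ N : ℕ in Filter.atTop, f N ≤ 2 ^ (Real.logb 2 N) ^ ε) ∧
    (Null f {A : Oracle | (∃ L, IsRP A L ∧ ¬ IsP A L) ∧ ∃ L, IsNP A L ∧ ¬ IsRP A L} ↔
      ∃ C : ℕ, ∀ᶠ N : ℕ in Filter.atTop, ∃ N' ≥ N, f N' ≤ (Real.logb 2 N) ^ C) := by
  have hRN : ∀ g : ℕ → ℝ, Cond g → Null g {A : Oracle | ∀ L, IsNP A L → IsRP A L} := by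
    intro g hg
    refine nullN hg _ fun A hA => ?_
    obtain ⟨L', h, p, h1, h2, h3⟩ := (hA _ (hitLang_np A)).withAdvice
    refine ⟨L'ᶜ, h, p, h1.compl.isNP, h2, fun x => ?_⟩
    rw [Set.mem_compl_iff, Set.mem_compl_iff, h3]
  refine ⟨⟨fun h => ?_, fun h => nullR h⟩, ⟨fun h ε hε => ?_, fun h => hRN f h⟩,
    ⟨fun h => ?_, fun h => (nullR h).mono fun A hA => hA.1⟩⟩
  · by_contra hcon
    exact not_nullR hcon h
  · by_contra hcon
    rw [Filter.not_frequently] at hcon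
    refine not_null f ε hε (hcon.mono fun N h => not_le.1 h) _ ?_ h
    intro A hA L hL
    exact (isP_of_reduces (hA L hL.isPSPACE)).isRP
  · by_contra hcon
    obtain ⟨g, hgf, hg1, hg2⟩ := not_cond1_min hcon
    have h1 := Null.anti hgf h
    refine not_nullR hg1 ((null_union h1 (hRN g hg2)).mono ?_)
    intro A hA
    by_cases h2 : ∃ L, IsNP A L ∧ ¬ IsRP A L
    · exact Or.inl ⟨hA, h2⟩
    · right
      intro L hL
      by_contra h3
      exact h2 ⟨L, hL, h3⟩

end Pool.Agent.Results.MP_b573ec_lc.GaugeThreshold
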