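import Pool.Agent.H556R2.SComplete

namespace Pool.Agent.H554R2.Moved.NPcoNPFixedExponent1c108a

open H556R2 in
theorem result : Sigma04Complete
    {A : Oracle | ∃ c : ℕ, ClassNTIME1 A ∩ ClassCoNTIME1 A ⊆ ClassDTIME c A} :=
  H556R2.fixed_exponent_npc_complete

end Pool.Agent.H554R2.Moved.NPcoNPFixedExponent1c108a
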