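import Pool.Agent.H550R2.Lift.SatLift
import Pool.Agent.H550R2.Lift.Sym
import Pool.Agent.H550R2.Lift.Net

set_option autoImplicit false

/-! # Satisfiability, tautologies and locally symmetric semidefinite programs

A semidefinite program of order `|D|` over the input variables `I` is an affine space `L` of pairs
(input vector, symmetric or not real matrix); it accepts an input vector `v` if there is a positive
semidefinite `Y` with `(v, Y) ∈ L`. Linear programs (and, by the last statement, circuits) are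
special cases. It is symmetric on a block of four variables if every even permutation of the
block, fixing all other variables, extends to an automorphism `Y ↦ T Y Tᵀ` (`T` orthogonal) of the
program.

For all disjoint blocks of four variables, `6300 k` of them, there are a satisfiable and an
unsatisfiable sparse 3-CNF which no semidefinite program of order `< 3 ^ (k / 2)` symmetric on
all the blocks tells apart. -/

namespace Pool.Agent.H554R2.Moved.SymmetricConvexProgramsdb7e04

open Pool.Agent.H550R2.SymSAT Pool.Agent.H550R2.Lift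

theorem result :
    -- a satisfiable and an unsatisfiable formula that cannot be told apart
    (∀ (X : Type) (r k : ℕ), 1 ≤ k → 6300 * k ≤ r → ∀ blk : Fin r → (Fin 4 ↪ X),
      (Pairwise fun i j => Disjoint (Set.range (blk i)) (Set.range (blk j))) →
      ∃ Φ Ψ : Set (Cl X), Sparse3 Φ ∧ Sat Φ ∧ Sparse3 Ψ ∧ ¬ Sat Ψ ∧
        ∀ (D : Type) [Fintype D] [DecidableEq D] (P : SDP (Cl X) D),
          (∀ i, P.SymOn clPerm (blk i)) → Fintype.card D ^ 2 < 3 ^ k →
          (P.Acc (ind Φ) ↔ P.Acc (ind Ψ))) ∧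
    -- arbitrarily many programs do not help
    (∀ (X : Type) (r k : ℕ), 1 ≤ k → 6300 * k ≤ r → ∀ blk : Fin r → (Fin 4 ↪ X),
      (Pairwise fun i j => Disjoint (Set.range (blk i)) (Set.range (blk j))) →
      ∀ (J : Type) (D : J → Type) [∀ j, Fintype (D j)] [∀ j, DecidableEq (D j)]
        (P : ∀ j, SDP (Cl X) (D j)),
        (∀ j i, (P j).SymOn clPerm (blk i)) → (∀ j, Fintype.card (D j) ^ 2 < 3 ^ k) →
        (¬ ∀ Φ : Set (Cl X), Sparse3 Φ → ((∃ j, (P j).Acc (ind Φ)) ↔ ¬ Sat Φ)) ∧
        (¬ ∀ Φ : Set (Cl X), Sparse3 Φ → ((∃ j, (P j).Acc (ind Φ)) ↔ Sat Φ))) ∧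
    -- symmetrization
    (∀ (X D : Type) [Fintype D] [DecidableEq D] (P : SDP (Cl X) D) (k : ℕ) (b : Prop),
      (∀ Φ : Set (Cl X), (∀ c ∈ Φ, c.card ≤ k) → (P.Acc (ind Φ) ↔ (Sat Φ ↔ b))) →
      ∀ (r : ℕ) (blk : Fin r → (Fin 4 ↪ X)),
        (Pairwise fun i j => Disjoint (Set.range (blk i)) (Set.range (blk j))) →
        ∃ (D' : Type) (_ : Fintype D') (_ : DecidableEq D') (P' : SDP (Cl X) D'),
          Fintype.card D' = 12 ^ r * Fintype.card D ∧ (∀ i, P'.SymOn clPerm (blk i)) ∧
          ∀ Φ : Set (Cl X), (∀ c ∈ Φ, c.card ≤ k) → (P'.Acc (ind Φ) ↔ (Sat Φ ↔ b))) ∧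
    -- networks of NAND gates are linear programs
    (∀ (I Gt : Type) [Fintype Gt] (N : GNet I Gt), Nand N →
      ∃ (D : Type) (_ : Fintype D) (_ : DecidableEq D) (P : SDP I D),
        Fintype.card D = Fintype.card Gt ^ 2 + 3 * Fintype.card Gt + 1 ∧
        (∀ q ∈ P.L, q.2.IsDiag) ∧
        ∀ x : Set I, P.Acc (ind x) ↔ N.val x N.out = true) := by
  classical
  refine ⟨?_, ?_, ?_, ?_⟩
  · intro X r k hk hr blk hd
    exact sat_pair X r k hk hr blk hd
  · intro X r k hk hr blk hd J D _ _ P hP hD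
    obtain ⟨Φ, Ψ, h1, h2, h3, h4, h5⟩ := sat_pair X r k hk hr blk hd
    have h6 : (∃ j, (P j).Acc (ind Φ)) ↔ ∃ j, (P j).Acc (ind Ψ) :=
      exists_congr fun j => h5 (D j) (P j) (hP j) (hD j)
    constructor
    · intro h
      exact (h Φ h1).1 (h6.2 ((h Ψ h3).2 h4)) h2
    · intro h
      exact h4 ((h Ψ h3).1 (h6.1 ((h Φ h1).2 h2)))
  · intro X D _ _ P k b hP r blk hd
    refine ⟨(Fin r → A4) × D, inferInstance, inferInstance,
      P.symm (fun γ => clPerm (bp (blkE blk hd) γ)), ?_,
      P.symm_sym clPerm clPerm_mul blk hd, ?_⟩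
    · rw [Fintype.card_prod, Fintype.card_fun, card_A4, Fintype.card_fin]
    · intro Φ hΦ
      rw [SDP.symm_acc]
      have key : ∀ γ : Fin r → A4, P.Acc (fun c => ind Φ (clPerm (bp (blkE blk hd) γ) c)) ↔
          (Sat Φ ↔ b) := by
        intro γ
        have h1 : (fun c => ind Φ (clPerm (bp (blkE blk hd) γ) c)) =
            ind (clPerm (bp (blkE blk hd) γ) ⁻¹' Φ) := rfl
        rw [h1, hP, sat_perm]
        intro c hc
        have h2 := hΦ _ hc
        have h3 : (clPerm (bp (blkE blk hd) γ) c).card = c.card := by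
          unfold clPerm
          rw [Equiv.finsetCongr_apply, Finset.card_map]
        rwa [h3] at h2
      constructor
      · intro h
        exact (key 1).1 (h 1)
      · intro h γ
        exact (key γ).2 h
  · intro I Gt _ N hN
    refine ⟨Con Gt, inferInstance, inferInstance, netSDP N, card_Con, ?_,
      fun x => netSDP_acc N hN x⟩
    rintro ⟨v, Y⟩ ⟨y, -, h2⟩
    simp only at h2
    subst h2
    exact Matrix.isDiag_diagonal _

end Pool.Agent.H554R2.Moved.SymmetricConvexProgramsdb7e04
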